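import Pool.Agent.TH316.AT.Ex

set_option autoImplicit false

open MeasureTheory ProbabilityTheory Set Filter Topology

namespace Pool.TH58.AT

open Pool.TH198.AT Pool.TH316.AT

lemma int_abs : Integrable (fun y : ℝ => |y|) (gaussianReal 0 1) :=
  ((memLp_id_gaussianReal (μ := 0) (v := 1) 1).integrable (by norm_num)).abs

lemma int_sq : Integrable (fun y : ℝ => y ^ 2) (gaussianReal 0 1) :=
  (memLp_id_gaussianReal (μ := 0) (v := 1) 2).integrable_sq

lemma m2 : ∫ y : ℝ, y ^ 2 ∂(gaussianReal 0 1) = 1 := by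
  have h := variance_fun_id_gaussianReal (μ := 0) (v := 1)
  rw [variance_eq_integral (by fun_prop)] at h
  simpa using h

lemma abs_le_one : ∫ y : ℝ, |y| ∂(gaussianReal 0 1) ≤ 1 := by
  have h1 : Integrable (fun y : ℝ => (y ^ 2 + 1) / 2) (gaussianReal 0 1) :=
    (int_sq.add (integrable_const 1)).div_const 2
  calc ∫ y : ℝ, |y| ∂(gaussianReal 0 1) ≤ ∫ y : ℝ, (y ^ 2 + 1) / 2 ∂(gaussianReal 0 1) := by
        refine integral_mono int_abs h1 fun y => ?_
        show |y| ≤ (y ^ 2 + 1) / 2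
        nlinarith [sq_abs y, sq_nonneg (|y| - 1)]
    _ = 1 := by
        rw [integral_div, integral_add int_sq (integrable_const 1), m2]
        simp

lemma E1_bd {F : ℝ → ℝ} {C : ℝ} (h : ∀ y, |F y| ≤ C) : |E1 F| ≤ C := by
  have := norm_integral_le_of_norm_le_const (μ := gaussianReal 0 1) (f := F) (C := C)
    (Eventually.of_forall fun y => by simpa using h y)
  simpa [E1] using this

lemma E1y_bd {F : ℝ → ℝ} {C : ℝ} (hC : 0 ≤ C) (h : ∀ y, |F y| ≤ C) :
    |E1 (fun y => y * F y)| ≤ C := by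
  have h1 : ‖∫ y, y * F y ∂(gaussianReal 0 1)‖ ≤ ∫ y, C * |y| ∂(gaussianReal 0 1) := by
    refine norm_integral_le_of_norm_le (int_abs.const_mul C) (Eventually.of_forall fun y => ?_)
    rw [Real.norm_eq_abs, abs_mul, mul_comm]
    exact mul_le_mul_of_nonneg_right (h y) (abs_nonneg y)
  rw [integral_const_mul] at h1
  have h2 := mul_le_mul_of_nonneg_left abs_le_one hC
  rw [mul_one] at h2
  exact le_trans h1 h2

lemma ck_mem (t : ℝ) : 0 ≤ ck t ∧ ck t ≤ 1 := by
  unfold ck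
  exact ⟨le_max_left _ _, max_le zero_le_one (min_le_right _ _)⟩

lemma ck_eq {s : ℝ} (h0 : 0 ≤ s) (h1 : s ≤ 1) : ck s = s := by
  unfold ck
  rw [min_eq_left h1, max_eq_right h0]

lemma ck_cont : Continuous ck := by
  unfold ck
  fun_prop

lemma zt_bd {ζ : ℝ → ℝ} (hζ : IsCdf ζ) (s : ℝ) : 0 ≤ zt ζ s ∧ zt ζ s ≤ 1 := by
  unfold zt
  split_ifs with h
  · exact hζ.2.1 _ ⟨le_max_left _ _, max_le zero_le_one h⟩
  · exact ⟨le_rfl, zero_le_one⟩

lemma zt_meas {ζ : ℝ → ℝ} (hζ : IsCdf ζ) : Measurable (zt ζ) := by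
  have hm : Monotone (fun s => ζ (ck s)) := by
    intro a b hab
    refine hζ.1 (ck_mem a) (ck_mem b) ?_
    unfold ck
    exact max_le_max le_rfl (min_le_min hab le_rfl)
  have : zt ζ = fun s => if s ≤ 1 then ζ (ck s) else 0 := by
    funext s
    unfold zt
    split_ifs with h
    · unfold ck
      rw [min_eq_left h]
    · rfl
  rw [this]
  exact Measurable.ite measurableSet_Iic hm.measurable measurable_const

/-- the weight -/
noncomputable def II (l : ℝ) : ℝ := ∫ u in (0 : ℝ)..1, Real.exp (-(l * u ^ 2))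

lemma II_int (l : ℝ) (c : ℝ) :
    IntervalIntegrable (fun u : ℝ => c * Real.exp (-(l * u ^ 2))) volume 0 1 :=
  Continuous.intervalIntegrable (by fun_prop) _ _

lemma II_nonneg (l : ℝ) : 0 ≤ II l :=
  intervalIntegral.integral_nonneg zero_le_one fun _ _ => (Real.exp_pos _).le

lemma II_small {ε : ℝ} (hε : 0 < ε) : ∃ l : ℝ, 0 ≤ l ∧ II l ≤ ε := by
  have hpi := Real.pi_pos
  set l : ℝ := Real.pi / (4 * ε ^ 2) with hl
  have hl0 : 0 < l := by positivity
  refine ⟨l, hl0.le, ?_⟩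
  have h1 : II l ≤ ∫ u in Ioi (0 : ℝ), Real.exp (-l * u ^ 2) := by
    unfold II
    rw [intervalIntegral.integral_of_le zero_le_one]
    have e : (fun u : ℝ => Real.exp (-(l * u ^ 2))) = fun u => Real.exp (-l * u ^ 2) := by
      funext u
      rw [neg_mul]
    rw [e]
    refine setIntegral_mono_set (integrable_exp_neg_mul_sq hl0).integrableOn
      (Eventually.of_forall fun u => (Real.exp_pos _).le)
      (LE.le.eventuallyLE Ioc_subset_Ioi_self)
  rw [integral_gaussian_Ioi] at h1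
  have h2 : Real.pi / l = (2 * ε) ^ 2 := by
    rw [hl]
    field_simp
    ring
  rw [h2, Real.sqrt_sq (by positivity)] at h1
  linarith

lemma aux_pt {l K : ℝ} (t u : ℝ) (h : ck t + u ^ 2 ≤ 1) :
    K * Real.exp (l * (1 - ck (ck t + u ^ 2))) =
      K * Real.exp (l * (1 - ck t)) * Real.exp (-(l * u ^ 2)) := by
  rw [ck_eq (by nlinarith [(ck_mem t).1, sq_nonneg u]) h, mul_assoc, ← Real.exp_add]
  congr 2
  ring

lemma SP_est {β K l : ℝ} {ζ : ℝ → ℝ} {g : ℝ → ℝ → ℝ} (hζ : IsCdf ζ) (hK : 0 ≤ K)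
    (h : ∀ s x, |g s x| ≤ K * Real.exp (l * (1 - ck s))) (t x : ℝ) :
    |SP β ζ g (ck t) x| ≤ β ^ 2 * 2 * (K * Real.exp (l * (1 - ck t))) * II l := by
  unfold SP
  rw [abs_mul, abs_of_nonneg (sq_nonneg β)]
  have h1 := intervalIntegral.norm_integral_le_of_norm_le (a := 0) (b := 1) (μ := volume)
    (f := fun u : ℝ => 2 * u *
      (zt ζ (ck t + u ^ 2) * E1 (fun y => g (ck t + u ^ 2) (x + √(2 * β ^ 2) * u * y))))
    (g := fun u : ℝ => (2 * (K * Real.exp (l * (1 - ck t)))) * Real.exp (-(l * u ^ 2)))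
    zero_le_one (Eventually.of_forall fun u hu => ?_) (II_int l _)
  · rw [intervalIntegral.integral_const_mul, Real.norm_eq_abs] at h1
    calc β ^ 2 * |∫ u in (0 : ℝ)..1, _| ≤ β ^ 2 *
        ((2 * (K * Real.exp (l * (1 - ck t)))) * II l) :=
          mul_le_mul_of_nonneg_left h1 (sq_nonneg β)
      _ = _ := by ring
  · show ‖2 * u * (zt ζ (ck t + u ^ 2) *
      E1 (fun y => g (ck t + u ^ 2) (x + √(2 * β ^ 2) * u * y)))‖ ≤
        (2 * (K * Real.exp (l * (1 - ck t)))) * Real.exp (-(l * u ^ 2))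
    rw [Real.norm_eq_abs]
    by_cases hs : ck t + u ^ 2 ≤ 1
    · have hE : |E1 (fun y => g (ck t + u ^ 2) (x + √(2 * β ^ 2) * u * y))| ≤
          K * Real.exp (l * (1 - ck t)) * Real.exp (-(l * u ^ 2)) := by
        refine E1_bd fun y => ?_
        rw [← aux_pt t u hs]
        exact h _ _
      rw [abs_mul, abs_mul (zt ζ _), abs_of_nonneg (by linarith [hu.1] : (0 : ℝ) ≤ 2 * u),
        abs_of_nonneg (zt_bd hζ _).1]
      have hz := (zt_bd hζ (ck t + u ^ 2))
      have hB : 0 ≤ K * Real.exp (l * (1 - ck t)) * Real.exp (-(l * u ^ 2)) := by positivity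
      calc 2 * u * (zt ζ (ck t + u ^ 2) * |_|) ≤ 2 * 1 * (1 *
            (K * Real.exp (l * (1 - ck t)) * Real.exp (-(l * u ^ 2)))) := by
            refine mul_le_mul (by linarith [hu.2]) ?_ (mul_nonneg hz.1 (abs_nonneg _)) (by norm_num)
            exact mul_le_mul hz.2 hE (abs_nonneg _) zero_le_one
        _ = _ := by ring
    · have : zt ζ (ck t + u ^ 2) = 0 := by
        unfold zt
        rw [if_neg hs]
      rw [this]
      simp only [zero_mul, mul_zero, abs_zero]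
      positivity

lemma SD_est {β K l : ℝ} {ζ : ℝ → ℝ} {g : ℝ → ℝ → ℝ} (hζ : IsCdf ζ) (hK : 0 ≤ K)
    (h : ∀ s x, |g s x| ≤ K * Real.exp (l * (1 - ck s))) (t x : ℝ) :
    |SD β ζ g (ck t) x| ≤
      β ^ 2 * (2 / √(2 * β ^ 2)) * (K * Real.exp (l * (1 - ck t))) * II l := by
  have hc : 0 ≤ 2 / √(2 * β ^ 2) := by positivity
  unfold SD
  rw [abs_mul, abs_of_nonneg (sq_nonneg β)]
  have h1 := intervalIntegral.norm_integral_le_of_norm_le (a := 0) (b := 1) (μ := volume)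
    (f := fun u : ℝ => 2 / √(2 * β ^ 2) *
      (zt ζ (ck t + u ^ 2) * E1 (fun y => y * g (ck t + u ^ 2) (x + √(2 * β ^ 2) * u * y))))
    (g := fun u : ℝ => (2 / √(2 * β ^ 2) * (K * Real.exp (l * (1 - ck t)))) *
      Real.exp (-(l * u ^ 2)))
    zero_le_one (Eventually.of_forall fun u hu => ?_) (II_int l _)
  · have h2 : ∫ u in (0 : ℝ)..1, (2 / √(2 * β ^ 2) * (K * Real.exp (l * (1 - ck t)))) *
        Real.exp (-(l * u ^ 2)) = (2 / √(2 * β ^ 2) * (K * Real.exp (l * (1 - ck t)))) * II l :=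
      intervalIntegral.integral_const_mul _ _
    rw [h2, Real.norm_eq_abs] at h1
    calc β ^ 2 * |∫ u in (0 : ℝ)..1, _| ≤ β ^ 2 *
        ((2 / √(2 * β ^ 2) * (K * Real.exp (l * (1 - ck t)))) * II l) :=
          mul_le_mul_of_nonneg_left h1 (sq_nonneg β)
      _ = _ := by ring
  · show ‖2 / √(2 * β ^ 2) * (zt ζ (ck t + u ^ 2) *
      E1 (fun y => y * g (ck t + u ^ 2) (x + √(2 * β ^ 2) * u * y)))‖ ≤
        (2 / √(2 * β ^ 2) * (K * Real.exp (l * (1 - ck t)))) * Real.exp (-(l * u ^ 2))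
    rw [Real.norm_eq_abs]
    by_cases hs : ck t + u ^ 2 ≤ 1
    · have hB : 0 ≤ K * Real.exp (l * (1 - ck t)) * Real.exp (-(l * u ^ 2)) := by positivity
      have hE : |E1 (fun y => y * g (ck t + u ^ 2) (x + √(2 * β ^ 2) * u * y))| ≤
          K * Real.exp (l * (1 - ck t)) * Real.exp (-(l * u ^ 2)) := by
        refine E1y_bd hB fun y => ?_
        rw [← aux_pt t u hs]
        exact h _ _
      rw [abs_mul, abs_mul (zt ζ _), abs_of_nonneg hc, abs_of_nonneg (zt_bd hζ _).1]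
      have hz := (zt_bd hζ (ck t + u ^ 2))
      calc 2 / √(2 * β ^ 2) * (zt ζ (ck t + u ^ 2) * |_|) ≤ 2 / √(2 * β ^ 2) * (1 *
            (K * Real.exp (l * (1 - ck t)) * Real.exp (-(l * u ^ 2)))) := by
            refine mul_le_mul_of_nonneg_left ?_ hc
            exact mul_le_mul hz.2 hE (abs_nonneg _) zero_le_one
        _ = _ := by ring
    · have : zt ζ (ck t + u ^ 2) = 0 := by
        unfold zt
        rw [if_neg hs]
      rw [this]
      simp only [zero_mul, mul_zero, abs_zero]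
      positivity

/-! ### linearity -/

lemma E1_cont {C : ℝ} {g : ℝ → ℝ → ℝ} (hg : BC C g) (t x c : ℝ) :
    Continuous (fun u : ℝ => E1 (fun y => g (t + u ^ 2) (x + c * u * y))) := by
  unfold E1
  refine continuous_of_dominated (bound := fun _ => C) (fun u => ?_)
    (fun u => Eventually.of_forall fun y => hg.2 _ _) (integrable_const C)
    (Eventually.of_forall fun y => ?_)
  · have : Continuous (fun y : ℝ => g (t + u ^ 2) (x + c * u * y)) :=
      hg.1.comp (f := fun y : ℝ => (t + u ^ 2, x + c * u * y)) (by fun_prop)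
    exact this.aestronglyMeasurable
  · exact hg.1.comp (f := fun u : ℝ => (t + u ^ 2, x + c * u * y)) (by fun_prop)

lemma E1y_cont {C : ℝ} {g : ℝ → ℝ → ℝ} (hg : BC C g) (t x c : ℝ) :
    Continuous (fun u : ℝ => E1 (fun y => y * g (t + u ^ 2) (x + c * u * y))) := by
  unfold E1
  refine continuous_of_dominated (bound := fun y => |y| * C) (fun u => ?_)
    (fun u => Eventually.of_forall fun y => ?_) (int_abs.mul_const C)
    (Eventually.of_forall fun y => ?_)
  · have : Continuous (fun y : ℝ => g (t + u ^ 2) (x + c * u * y)) :=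
      hg.1.comp (f := fun y : ℝ => (t + u ^ 2, x + c * u * y)) (by fun_prop)
    exact (continuous_id.mul this).aestronglyMeasurable
  · rw [Real.norm_eq_abs, abs_mul]
    exact mul_le_mul_of_nonneg_left (hg.2 _ _) (abs_nonneg y)
  · exact continuous_const.mul
      (hg.1.comp (f := fun u : ℝ => (t + u ^ 2, x + c * u * y)) (by fun_prop))

lemma BC.nonneg {C : ℝ} {g : ℝ → ℝ → ℝ} (hg : BC C g) : 0 ≤ C :=
  le_trans (abs_nonneg _) (hg.2 0 0)

lemma int_SP {β C : ℝ} {ζ : ℝ → ℝ} {g : ℝ → ℝ → ℝ} (hζ : IsCdf ζ) (hg : BC C g) (t x : ℝ) :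
    IntervalIntegrable (fun u : ℝ => 2 * u *
      (zt ζ (t + u ^ 2) * E1 (fun y => g (t + u ^ 2) (x + √(2 * β ^ 2) * u * y)))) volume 0 1 := by
  have hC := BC.nonneg hg
  rw [intervalIntegrable_iff_integrableOn_Ioc_of_le zero_le_one]
  have hm : Measurable (fun u : ℝ => 2 * u *
      (zt ζ (t + u ^ 2) * E1 (fun y => g (t + u ^ 2) (x + √(2 * β ^ 2) * u * y)))) :=
    (measurable_const.mul measurable_id).mul
      (((zt_meas hζ).comp (f := fun u : ℝ => t + u ^ 2) (by fun_prop)).mul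
        (E1_cont hg t x _).measurable)
  refine Integrable.mono' (g := fun _ => 2 * C) (integrableOn_const (by simp) enorm_ne_top)
    hm.aestronglyMeasurable ((ae_restrict_iff' measurableSet_Ioc).2
      (Eventually.of_forall fun u hu => ?_))
  have hz := (zt_bd hζ (t + u ^ 2))
  rw [Real.norm_eq_abs, abs_mul, abs_mul (zt ζ _),
    abs_of_nonneg (by linarith [hu.1] : (0 : ℝ) ≤ 2 * u), abs_of_nonneg hz.1]
  calc 2 * u * (zt ζ (t + u ^ 2) * |_|) ≤ 2 * 1 * (1 * C) := by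
        refine mul_le_mul (by linarith [hu.2]) ?_ (mul_nonneg hz.1 (abs_nonneg _)) (by norm_num)
        exact mul_le_mul hz.2 (E1_bd fun y => hg.2 _ _) (abs_nonneg _) zero_le_one
    _ = 2 * C := by ring

lemma int_SD {β C : ℝ} {ζ : ℝ → ℝ} {g : ℝ → ℝ → ℝ} (hζ : IsCdf ζ) (hg : BC C g) (t x : ℝ) :
    IntervalIntegrable (fun u : ℝ => 2 / √(2 * β ^ 2) *
      (zt ζ (t + u ^ 2) * E1 (fun y => y * g (t + u ^ 2) (x + √(2 * β ^ 2) * u * y))))
      volume 0 1 := by
  have hC := BC.nonneg hg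
  have hc : 0 ≤ 2 / √(2 * β ^ 2) := by positivity
  rw [intervalIntegrable_iff_integrableOn_Ioc_of_le zero_le_one]
  have hm : Measurable (fun u : ℝ => 2 / √(2 * β ^ 2) *
      (zt ζ (t + u ^ 2) * E1 (fun y => y * g (t + u ^ 2) (x + √(2 * β ^ 2) * u * y)))) :=
    measurable_const.mul
      (((zt_meas hζ).comp (f := fun u : ℝ => t + u ^ 2) (by fun_prop)).mul
        (E1y_cont hg t x _).measurable)
  refine Integrable.mono' (g := fun _ => 2 / √(2 * β ^ 2) * C)
    (integrableOn_const (by simp) enorm_ne_top)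
    hm.aestronglyMeasurable ((ae_restrict_iff' measurableSet_Ioc).2
      (Eventually.of_forall fun u hu => ?_))
  have hz := (zt_bd hζ (t + u ^ 2))
  rw [Real.norm_eq_abs, abs_mul, abs_mul (zt ζ _), abs_of_nonneg hc, abs_of_nonneg hz.1]
  refine mul_le_mul_of_nonneg_left ?_ hc
  calc zt ζ (t + u ^ 2) * |_| ≤ 1 * C :=
        mul_le_mul hz.2 (E1y_bd hC fun y => hg.2 _ _) (abs_nonneg _) zero_le_one
    _ = C := one_mul _

lemma E1_sub' {C C' : ℝ} {g g' : ℝ → ℝ → ℝ} (hg : BC C g) (hg' : BC C' g') (s x c : ℝ) :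
    E1 (fun y => g s (x + c * y) - g' s (x + c * y)) =
      E1 (fun y => g s (x + c * y)) - E1 (fun y => g' s (x + c * y)) := by
  unfold E1
  refine integral_sub ?_ ?_
  · refine Integrable.of_bound (C := C) ?_ (Eventually.of_forall fun y => hg.2 _ _)
    exact (hg.1.comp (f := fun y : ℝ => (s, x + c * y)) (by fun_prop)).aestronglyMeasurable
  · refine Integrable.of_bound (C := C') ?_ (Eventually.of_forall fun y => hg'.2 _ _)
    exact (hg'.1.comp (f := fun y : ℝ => (s, x + c * y)) (by fun_prop)).aestronglyMeasurable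

lemma E1y_int {C : ℝ} {g : ℝ → ℝ → ℝ} (hg : BC C g) (s x c : ℝ) :
    Integrable (fun y => y * g s (x + c * y)) (gaussianReal 0 1) := by
  have hc : Continuous (fun y : ℝ => g s (x + c * y)) :=
    hg.1.comp (f := fun y : ℝ => (s, x + c * y)) (by fun_prop)
  refine (int_abs.mul_const C).mono' (continuous_id.mul hc).aestronglyMeasurable
    (Eventually.of_forall fun y => ?_)
  show ‖y * g s (x + c * y)‖ ≤ |y| * C
  rw [Real.norm_eq_abs, abs_mul]
  exact mul_le_mul_of_nonneg_left (hg.2 _ _) (abs_nonneg y)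

lemma E1y_sub' {C C' : ℝ} {g g' : ℝ → ℝ → ℝ} (hg : BC C g) (hg' : BC C' g') (s x c : ℝ) :
    E1 (fun y => y * (g s (x + c * y) - g' s (x + c * y))) =
      E1 (fun y => y * g s (x + c * y)) - E1 (fun y => y * g' s (x + c * y)) := by
  unfold E1
  rw [← integral_sub (E1y_int hg s x c) (E1y_int hg' s x c)]
  refine integral_congr_ae (Eventually.of_forall fun y => ?_)
  show y * (g s (x + c * y) - g' s (x + c * y)) = y * g s (x + c * y) - y * g' s (x + c * y)
  ring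

lemma SP_sub {β C C' : ℝ} {ζ : ℝ → ℝ} {g g' : ℝ → ℝ → ℝ} (hζ : IsCdf ζ) (hg : BC C g)
    (hg' : BC C' g') (t x : ℝ) :
    SP β ζ g t x - SP β ζ g' t x = SP β ζ (fun s x => g s x - g' s x) t x := by
  unfold SP
  rw [← mul_sub, ← intervalIntegral.integral_sub (int_SP hζ hg t x) (int_SP hζ hg' t x)]
  congr 1
  refine intervalIntegral.integral_congr fun u _ => ?_
  show 2 * u * (zt ζ (t + u ^ 2) * E1 (fun y => g (t + u ^ 2) (x + √(2 * β ^ 2) * u * y))) -
    2 * u * (zt ζ (t + u ^ 2) * E1 (fun y => g' (t + u ^ 2) (x + √(2 * β ^ 2) * u * y))) =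
    2 * u * (zt ζ (t + u ^ 2) * E1 (fun y => g (t + u ^ 2) (x + √(2 * β ^ 2) * u * y) -
      g' (t + u ^ 2) (x + √(2 * β ^ 2) * u * y)))
  rw [E1_sub' hg hg']
  ring

lemma SD_sub {β C C' : ℝ} {ζ : ℝ → ℝ} {g g' : ℝ → ℝ → ℝ} (hζ : IsCdf ζ) (hg : BC C g)
    (hg' : BC C' g') (t x : ℝ) :
    SD β ζ g t x - SD β ζ g' t x = SD β ζ (fun s x => g s x - g' s x) t x := by
  unfold SD
  rw [← mul_sub, ← intervalIntegral.integral_sub (int_SD hζ hg t x) (int_SD hζ hg' t x)]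
  congr 1
  refine intervalIntegral.integral_congr fun u _ => ?_
  show 2 / √(2 * β ^ 2) *
      (zt ζ (t + u ^ 2) * E1 (fun y => y * g (t + u ^ 2) (x + √(2 * β ^ 2) * u * y))) -
    2 / √(2 * β ^ 2) *
      (zt ζ (t + u ^ 2) * E1 (fun y => y * g' (t + u ^ 2) (x + √(2 * β ^ 2) * u * y))) =
    2 / √(2 * β ^ 2) * (zt ζ (t + u ^ 2) * E1 (fun y => y * (g (t + u ^ 2)
      (x + √(2 * β ^ 2) * u * y) - g' (t + u ^ 2) (x + √(2 * β ^ 2) * u * y))))
  rw [E1y_sub' hg hg']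
  ring

/-! ### the cut -/

lemma cl_cont (M : ℝ) : Continuous (cl M) := by
  unfold cl
  fun_prop

lemma cl_lip (M u v : ℝ) : |cl M u - cl M v| ≤ |u - v| := by
  unfold cl
  refine le_trans (abs_max_sub_max_le_max _ _ _ _) ?_
  rw [sub_self, abs_zero]
  refine max_le (abs_nonneg _) ?_
  refine le_trans (abs_min_sub_min_le_max _ _ _ _) ?_
  rw [sub_self, abs_zero]
  exact max_le le_rfl (abs_nonneg _)

lemma cl_bd {M : ℝ} (hM : 0 ≤ M) (u : ℝ) : |cl M u| ≤ M := by
  unfold cl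
  exact abs_le.2 ⟨le_max_left _ _, max_le (by linarith) (min_le_right _ _)⟩

lemma cl_le {M : ℝ} (hM : 0 ≤ M) (u : ℝ) : |cl M u| ≤ |u| := by
  have h := cl_lip M u 0
  have h0 : cl M 0 = 0 := by
    unfold cl
    rw [min_eq_left hM, max_eq_right (by linarith)]
  rwa [h0, sub_zero, sub_zero] at h

lemma cl_eq {M u : ℝ} (h : |u| ≤ M) : cl M u = u := by
  unfold cl
  rw [min_eq_left (abs_le.1 h).2, max_eq_right (abs_le.1 h).1]

lemma cut_lip {M w w' z z' : ℝ} (hM : 0 ≤ M) :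
    |2 * cl 1 w * cl M z - 2 * cl 1 w' * cl M z'| ≤ 2 * |z - z'| + 2 * M * |w - w'| := by
  have e : 2 * cl 1 w * cl M z - 2 * cl 1 w' * cl M z' =
      2 * cl 1 w * (cl M z - cl M z') + 2 * cl M z' * (cl 1 w - cl 1 w') := by ring
  rw [e]
  refine le_trans (abs_add_le _ _) ?_
  rw [abs_mul, abs_mul, abs_mul, abs_mul, abs_of_pos (two_pos : (0 : ℝ) < 2)]
  have h1 := cl_bd (zero_le_one) w
  have h2 := cl_bd hM z'
  have h3 := cl_lip M z z'
  have h4 := cl_lip 1 w w'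
  have h5 : |cl 1 w| * |cl M z - cl M z'| ≤ 1 * |z - z'| :=
    mul_le_mul h1 h3 (abs_nonneg _) zero_le_one
  have h6 : |cl M z'| * |cl 1 w - cl 1 w'| ≤ M * |w - w'| :=
    mul_le_mul h2 h4 (abs_nonneg _) hM
  nlinarith

/-! ### the map -/

/-- the weighted function -/
noncomputable def Gw (l : ℝ) (h : BoundedContinuousFunction (ℝ × ℝ) ℝ) (t x : ℝ) : ℝ :=
  Real.exp (l * (1 - ck t)) * h (t, x)

lemma Gw_BC {l : ℝ} (hl : 0 ≤ l) (h : BoundedContinuousFunction (ℝ × ℝ) ℝ) :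
    BC (Real.exp l * ‖h‖) (Gw l h) := by
  refine ⟨?_, fun t x => ?_⟩
  · unfold Gw
    have h1 : Continuous (fun p : ℝ × ℝ => ck p.1) := ck_cont.comp continuous_fst
    have h2 : Continuous (fun p : ℝ × ℝ => h (p.1, p.2)) := h.continuous
    exact (Real.continuous_exp.comp (continuous_const.mul (continuous_const.sub h1))).mul h2
  · unfold Gw
    rw [abs_mul, abs_of_pos (Real.exp_pos _)]
    refine mul_le_mul ?_ (h.norm_coe_le_norm (t, x)) (abs_nonneg _) (Real.exp_pos _).le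
    refine Real.exp_le_exp.2 ?_
    nlinarith [ck_mem t]

/-- the map before multiplication with the weight -/
noncomputable def Ph (β M : ℝ) (ζ : ℝ → ℝ) (g : ℝ → ℝ → ℝ) (t x : ℝ) : ℝ :=
  2 * cl 1 (WW β ζ g (ck t) x) * cl M (ZZ β ζ g (ck t) x)

lemma ck_ck (t : ℝ) : ck (ck t) = ck t := ck_eq (ck_mem t).1 (ck_mem t).2

lemma Ph_cont (hC : St_CT) (hP : St_PT) {β M C : ℝ} {ζ : ℝ → ℝ} {g : ℝ → ℝ → ℝ} (hβ : 0 < β)
    (hζ : IsCdf ζ) (hg : BC C g) : Continuous (fun p : ℝ × ℝ => Ph β M ζ g p.1 p.2) := by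
  obtain ⟨h1, h2⟩ := hC β C ζ g hβ hζ hg
  obtain ⟨h3, h4, -⟩ := hP β hβ
  have hW : Continuous (fun p : ℝ × ℝ => WW β ζ g (ck p.1) p.2) := h3.1.add h1.1
  have hZ : Continuous (fun p : ℝ × ℝ => ZZ β ζ g (ck p.1) p.2) := h4.1.add h2.1
  exact (continuous_const.mul ((cl_cont 1).comp hW)).mul ((cl_cont M).comp hZ)

lemma Ph_bd {β M : ℝ} {ζ : ℝ → ℝ} {g : ℝ → ℝ → ℝ} (hM : 0 ≤ M) (t x : ℝ) :
    |Ph β M ζ g t x| ≤ 2 * M := by
  unfold Ph
  rw [abs_mul, abs_mul, abs_of_pos (two_pos : (0 : ℝ) < 2)]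
  have h1 := cl_bd (zero_le_one) (WW β ζ g (ck t) x)
  have h2 := cl_bd hM (ZZ β ζ g (ck t) x)
  calc 2 * |_| * |_| ≤ 2 * 1 * M :=
        mul_le_mul (by linarith) h2 (abs_nonneg _) (by norm_num)
    _ = 2 * M := by ring

noncomputable def Mp (hC : St_CT) (hP : St_PT) {β M l : ℝ} {ζ : ℝ → ℝ} (hβ : 0 < β)
    (hM : 0 ≤ M) (hl : 0 ≤ l) (hζ : IsCdf ζ) (h : BoundedContinuousFunction (ℝ × ℝ) ℝ) :
    BoundedContinuousFunction (ℝ × ℝ) ℝ :=
  BoundedContinuousFunction.ofNormedAddCommGroup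
    (fun p : ℝ × ℝ => Real.exp (-(l * (1 - ck p.1))) * Ph β M ζ (Gw l h) p.1 p.2)
    (by
      have h1 : Continuous (fun p : ℝ × ℝ => ck p.1) := ck_cont.comp continuous_fst
      exact (Real.continuous_exp.comp (continuous_const.mul (continuous_const.sub h1)).neg).mul
        (Ph_cont hC hP hβ hζ (Gw_BC hl h)))
    (2 * M)
    (by
      intro p
      rw [Real.norm_eq_abs, abs_mul, abs_of_pos (Real.exp_pos _)]
      have h1 : Real.exp (-(l * (1 - ck p.1))) ≤ 1 := by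
        rw [Real.exp_le_one_iff]
        nlinarith [ck_mem p.1]
      calc Real.exp (-(l * (1 - ck p.1))) * |_| ≤ 1 * (2 * M) :=
            mul_le_mul h1 (Ph_bd hM _ _) (abs_nonneg _) zero_le_one
        _ = 2 * M := one_mul _)

lemma Mp_lip (hC : St_CT) (hP : St_PT) {β M l : ℝ} {ζ : ℝ → ℝ} (hβ : 0 < β)
    (hM : 0 ≤ M) (hl : 0 ≤ l) (hζ : IsCdf ζ)
    (hs : (2 * (β ^ 2 * (2 / √(2 * β ^ 2))) + 2 * M * (β ^ 2 * 2)) * II l ≤ 1 / 2)
    (h h' : BoundedContinuousFunction (ℝ × ℝ) ℝ) :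
    dist (Mp hC hP hβ hM hl hζ h) (Mp hC hP hβ hM hl hζ h') ≤ 1 / 2 * dist h h' := by
  have hd : 0 ≤ dist h h' := dist_nonneg
  rw [BoundedContinuousFunction.dist_le (by positivity)]
  intro p
  obtain ⟨t, x⟩ := p
  have hB := Gw_BC hl h
  have hB' := Gw_BC hl h'
  have hdiff : ∀ s x, |Gw l h s x - Gw l h' s x| ≤ dist h h' * Real.exp (l * (1 - ck s)) := by
    intro s x
    unfold Gw
    rw [← mul_sub, abs_mul, abs_of_pos (Real.exp_pos _), mul_comm]
    refine mul_le_mul_of_nonneg_right ?_ (Real.exp_pos _).le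
    exact BoundedContinuousFunction.dist_coe_le_dist (f := h) (g := h') (s, x)
  have h1 := SP_est (β := β) (l := l) (g := fun s x => Gw l h s x - Gw l h' s x) hζ hd hdiff t x
  have h2 := SD_est (β := β) (l := l) (g := fun s x => Gw l h s x - Gw l h' s x) hζ hd hdiff t x
  rw [← SP_sub hζ hB hB'] at h1
  rw [← SD_sub hζ hB hB'] at h2
  have h3 := cut_lip (w := WW β ζ (Gw l h) (ck t) x) (w' := WW β ζ (Gw l h') (ck t) x)
    (z := ZZ β ζ (Gw l h) (ck t) x) (z' := ZZ β ζ (Gw l h') (ck t) x) hM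
  have e1 : WW β ζ (Gw l h) (ck t) x - WW β ζ (Gw l h') (ck t) x =
      SP β ζ (Gw l h) (ck t) x - SP β ζ (Gw l h') (ck t) x := by
    unfold WW
    ring
  have e2 : ZZ β ζ (Gw l h) (ck t) x - ZZ β ζ (Gw l h') (ck t) x =
      SD β ζ (Gw l h) (ck t) x - SD β ζ (Gw l h') (ck t) x := by
    unfold ZZ
    ring
  rw [e1, e2] at h3
  set e : ℝ := Real.exp (l * (1 - ck t)) with he
  have he0 : 0 < e := Real.exp_pos _
  have hee : Real.exp (-(l * (1 - ck t))) * e = 1 := by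
    rw [he, ← Real.exp_add]
    simp
  have h4 : |Ph β M ζ (Gw l h) t x - Ph β M ζ (Gw l h') t x| ≤ 1 / 2 * dist h h' * e := by
    unfold Ph
    refine le_trans h3 ?_
    have h5 : 2 * |SD β ζ (Gw l h) (ck t) x - SD β ζ (Gw l h') (ck t) x| +
        2 * M * |SP β ζ (Gw l h) (ck t) x - SP β ζ (Gw l h') (ck t) x| ≤
        2 * (β ^ 2 * (2 / √(2 * β ^ 2)) * (dist h h' * e) * II l) +
        2 * M * (β ^ 2 * 2 * (dist h h' * e) * II l) :=
      add_le_add (mul_le_mul_of_nonneg_left h2 (by norm_num))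
        (mul_le_mul_of_nonneg_left h1 (by positivity))
    refine le_trans h5 ?_
    have h6 := mul_le_mul_of_nonneg_right hs (mul_nonneg hd he0.le)
    linarith
  show dist (Real.exp (-(l * (1 - ck t))) * Ph β M ζ (Gw l h) t x)
    (Real.exp (-(l * (1 - ck t))) * Ph β M ζ (Gw l h') t x) ≤ 1 / 2 * dist h h'
  rw [Real.dist_eq, ← mul_sub, abs_mul, abs_of_pos (Real.exp_pos _)]
  calc Real.exp (-(l * (1 - ck t))) * |_| ≤
      Real.exp (-(l * (1 - ck t))) * (1 / 2 * dist h h' * e) :=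
        mul_le_mul_of_nonneg_left h4 (Real.exp_pos _).le
    _ = (Real.exp (-(l * (1 - ck t))) * e) * (1 / 2 * dist h h') := by ring
    _ = 1 / 2 * dist h h' := by rw [hee, one_mul]

theorem t_FP (hC : St_CT) (hP : St_PT) : St_FP := by
  intro β ζ hβ hζ
  obtain ⟨hP1, hP2, -⟩ := hP β hβ
  set cD : ℝ := β ^ 2 * (2 / √(2 * β ^ 2)) with hcD
  have hs0 : 0 < √(2 * β ^ 2) := Real.sqrt_pos.2 (by positivity)
  have hcD0 : 0 < cD := by positivity
  obtain ⟨l0, hl0, hI0⟩ := II_small (ε := 1 / (4 * cD)) (by positivity)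
  have hI0' : cD * II l0 ≤ 1 / 4 := by
    have := mul_le_mul_of_nonneg_left hI0 hcD0.le
    have e : cD * (1 / (4 * cD)) = 1 / 4 := by field_simp
    rwa [e] at this
  set M : ℝ := 1 + Real.exp l0 with hM
  have hM0 : 0 ≤ M := by positivity
  have hc2 : 0 < 2 * cD + 2 * M * (β ^ 2 * 2) := by positivity
  obtain ⟨l, hl, hI⟩ := II_small (ε := 1 / (2 * (2 * cD + 2 * M * (β ^ 2 * 2)))) (by positivity)
  have hs : (2 * cD + 2 * M * (β ^ 2 * 2)) * II l ≤ 1 / 2 := by
    have := mul_le_mul_of_nonneg_left hI hc2.le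
    have e : (2 * cD + 2 * M * (β ^ 2 * 2)) * (1 / (2 * (2 * cD + 2 * M * (β ^ 2 * 2)))) =
        1 / 2 := by field_simp
    rwa [e] at this
  have hcon : ContractingWith (1 / 2 : NNReal) (Mp hC hP hβ hM0 hl hζ) := by
    refine ⟨by
      rw [← NNReal.coe_lt_coe]
      norm_num, LipschitzWith.of_dist_le_mul fun h h' => ?_⟩
    have := Mp_lip hC hP hβ hM0 hl hζ hs h h'
    simpa using this
  set h := hcon.fixedPoint _ with hh
  have hfix : Mp hC hP hβ hM0 hl hζ h = h := hcon.fixedPoint_isFixedPt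
  set g : ℝ → ℝ → ℝ := Gw l h with hg
  have hgB : BC (Real.exp l * ‖h‖) g := Gw_BC hl h
  have hge : ∀ t x, g t x = Ph β M ζ g t x := by
    intro t x
    have h1 : h (t, x) = Real.exp (-(l * (1 - ck t))) * Ph β M ζ g t x := by
      conv_lhs => rw [← hfix]
      rfl
    show Real.exp (l * (1 - ck t)) * h (t, x) = _
    rw [h1, ← mul_assoc, ← Real.exp_add]
    simp
  have hZb : ∀ K : ℝ, 0 ≤ K → (∀ t x, |g t x| ≤ K * Real.exp (l0 * (1 - ck t))) → ∀ t x,
      |ZZ β ζ g (ck t) x| ≤ 1 + 1 / 4 * (K * Real.exp (l0 * (1 - ck t))) := by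
    intro K hK hb t x
    have h1 := SD_est (β := β) (l := l0) (g := g) hζ hK hb t x
    have h2 : |PP β (fun x => sech x ^ 2) (ck t) x| ≤ 1 := hP2.2 t x
    unfold ZZ
    refine le_trans (abs_add_le _ _) (add_le_add h2 (le_trans h1 ?_))
    have h3 : 0 ≤ K * Real.exp (l0 * (1 - ck t)) := by positivity
    have h4 := mul_le_mul_of_nonneg_right hI0' h3
    linarith
  have hgZ : ∀ t x, |g t x| ≤ 2 * |ZZ β ζ g (ck t) x| := by
    intro t x
    rw [hge t x]
    unfold Ph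
    rw [abs_mul, abs_mul, abs_of_pos (two_pos : (0 : ℝ) < 2)]
    have h1 := cl_bd (zero_le_one) (WW β ζ g (ck t) x)
    have h2 := cl_le hM0 (ZZ β ζ g (ck t) x)
    calc 2 * |_| * |_| ≤ 2 * 1 * |ZZ β ζ g (ck t) x| :=
          mul_le_mul (by linarith) h2 (abs_nonneg _) (by norm_num)
      _ = _ := by ring
  have he1 : ∀ t, 1 ≤ Real.exp (l0 * (1 - ck t)) := by
    intro t
    refine Real.one_le_exp ?_
    nlinarith [ck_mem t]
  have hind : ∀ n : ℕ, ∀ t x, |g t x| ≤ (4 + 2 * M / 2 ^ n) * Real.exp (l0 * (1 - ck t)) := by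
    intro n
    induction n with
    | zero =>
      intro t x
      have h1 : |g t x| ≤ 2 * M := by
        rw [hge t x]
        exact Ph_bd hM0 t x
      have h2 := he1 t
      have h3 : 2 * M * 1 ≤ (4 + 2 * M / 2 ^ 0) * Real.exp (l0 * (1 - ck t)) := by
        refine mul_le_mul ?_ h2 zero_le_one ?_
        · rw [pow_zero, div_one]
          linarith
        · positivity
      linarith
    | succ n ih =>
      intro t x
      have h1 := hZb _ (by positivity) ih t x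
      have h2 := hgZ t x
      have h3 := he1 t
      have e : (4 + 2 * M / 2 ^ (n + 1)) * Real.exp (l0 * (1 - ck t)) =
          2 * Real.exp (l0 * (1 - ck t)) +
            1 / 2 * ((4 + 2 * M / 2 ^ n) * Real.exp (l0 * (1 - ck t))) := by
        rw [pow_succ]
        field_simp
        ring
      rw [e]
      linarith
  have hlim : ∀ t x, |g t x| ≤ 4 * Real.exp (l0 * (1 - ck t)) := by
    intro t x
    have hT : Tendsto (fun n : ℕ => (4 + 2 * M / 2 ^ n) * Real.exp (l0 * (1 - ck t))) atTop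
        (𝓝 ((4 + 0) * Real.exp (l0 * (1 - ck t)))) := by
      refine Tendsto.mul_const _ (Tendsto.const_add _ ?_)
      exact tendsto_const_nhds.div_atTop (tendsto_pow_atTop_atTop_of_one_lt one_lt_two)
    rw [add_zero] at hT
    exact ge_of_tendsto' hT fun n => hind n t x
  have hZM : ∀ t x, |ZZ β ζ g (ck t) x| ≤ M := by
    intro t x
    have h1 := hZb 4 (by norm_num) hlim t x
    have h2 : Real.exp (l0 * (1 - ck t)) ≤ Real.exp l0 := by
      refine Real.exp_le_exp.2 ?_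
      nlinarith [ck_mem t]
    rw [hM]
    linarith
  refine ⟨_, g, hgB, fun t x => ?_⟩
  rw [hge t x]
  unfold Ph
  rw [cl_eq (hZM t x)]

end Pool.TH58.AT
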